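import Pool.Agent.Run7.h96.IX.Stm

/-!
# Project IX (helper96, MP_bc4c60_co), piece MUL
Products of families.
-/

set_option autoImplicit false

open Finset

namespace Run7.h923.IX

open Run7.h96.IX

/-- the union of a subset of `Fin m` and a subset of `Fin n` in `Fin (m + n)` -/
def cmb {m n : ℕ} (p : Finset (Fin m) × Finset (Fin n)) : Finset (Fin (m + n)) :=
  (p.1.disjSum p.2).map finSumFinEquiv.toEmbedding

theorem cmb_inj {m n : ℕ} : Function.Injective (cmb (m := m) (n := n)) := by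
  rintro ⟨S, S'⟩ ⟨T, T'⟩ h
  have h1 : S.disjSum S' = T.disjSum T' := Finset.map_injective _ h
  have h2 := congrArg Finset.toLeft h1
  have h3 := congrArg Finset.toRight h1
  rw [Finset.toLeft_disjSum, Finset.toLeft_disjSum] at h2
  rw [Finset.toRight_disjSum, Finset.toRight_disjSum] at h3
  rw [h2, h3]

theorem cmb_inter {m n : ℕ} (p q : Finset (Fin m) × Finset (Fin n)) :
    (cmb p ∩ cmb q).card = (p.1 ∩ q.1).card + (p.2 ∩ q.2).card := by
  have h1 : (p.1.disjSum p.2) ∩ (q.1.disjSum q.2) = (p.1 ∩ q.1).disjSum (p.2 ∩ q.2) := by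
    ext x
    rcases x with x | x <;> simp
  unfold cmb
  rw [← Finset.map_inter, Finset.card_map, h1, Finset.card_disjSum]

theorem t_MUL : S_MUL := by
  intro m n lam lam' A B A' B'
  refine ⟨(A ×ˢ A').image cmb, (B ×ˢ B').image cmb, ?_, ?_, ?_⟩
  · rw [Finset.card_image_of_injective _ cmb_inj, Finset.card_product]
  · rw [Finset.card_image_of_injective _ cmb_inj, Finset.card_product]
  · unfold cnt
    rw [← Finset.card_product]
    refine Finset.card_le_card_of_injOn
      (fun x => (cmb (x.1.1, x.2.1), cmb (x.1.2, x.2.2))) ?_ ?_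
    · intro x hx
      have hx' := hx
      simp only [Finset.coe_product, Set.mem_prod, Finset.mem_coe, Finset.mem_filter,
        Finset.mem_product] at hx'
      obtain ⟨⟨⟨h1, h2⟩, h3⟩, ⟨⟨h4, h5⟩, h6⟩⟩ := hx'
      simp only [Finset.coe_filter, Set.mem_ofPred_eq, Finset.mem_product, Finset.mem_image]
      refine ⟨⟨⟨(x.1.1, x.2.1), ⟨h1, h4⟩, rfl⟩, ⟨(x.1.2, x.2.2), ⟨h2, h5⟩, rfl⟩⟩, ?_⟩
      rw [cmb_inter, h3, h6]
    · rintro x - y - hxy
      simp only [Prod.mk.injEq] at hxy
      have h1 := cmb_inj hxy.1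
      have h2 := cmb_inj hxy.2
      simp only [Prod.mk.injEq] at h1 h2
      exact Prod.ext (Prod.ext h1.1 h2.1) (Prod.ext h1.2 h2.2)

end Run7.h923.IX
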